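import Pool.Agent.Y360.RR.Stm

set_option autoImplicit false

/-!
Task GEN of project Y360-RR: the generating function of `V` near `0`.
-/

open Filter Topology Finset

namespace Pool.Agent.Y891.RR

open Pool.Agent.Y360.RR

/-- the Gaussian binomial coefficients `[k+j; j]_x` -/
noncomputable def h (x : ℂ) : ℕ → ℕ → ℂ
  | 0, _ => 1
  | _ + 1, 0 => 1
  | k + 1, j + 1 => h x k (j + 1) + x ^ (k + 1) * h x (k + 1) j

theorem h_zero_right (x : ℂ) (k : ℕ) : h x k 0 = 1 := by
  cases k <;> simp [h]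

theorem h_zero_left (x : ℂ) (j : ℕ) : h x 0 j = 1 := by
  simp [h]

theorem h_succ (x : ℂ) (k j : ℕ) :
    h x (k + 1) (j + 1) = h x k (j + 1) + x ^ (k + 1) * h x (k + 1) j := by
  rw [h]

theorem norm_h_le (x : ℂ) (hx : ‖x‖ = 1) (k : ℕ) : ∀ j : ℕ, ‖h x k j‖ ≤ 2 ^ (k + j) := by
  induction k with
  | zero =>
    intro j
    rw [h_zero_left, norm_one]
    exact one_le_pow₀ one_le_two
  | succ k ihk =>
    intro j
    induction j with
    | zero =>
      rw [h_zero_right, norm_one]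
      exact one_le_pow₀ one_le_two
    | succ j ihj =>
      rw [h_succ]
      refine (norm_add_le _ _).trans ?_
      rw [norm_mul, norm_pow, hx, one_pow, one_mul]
      have h1 := ihk (j + 1)
      have e1 : (2 : ℝ) ^ (k + 1 + (j + 1)) = 2 ^ (k + (j + 1)) + 2 ^ (k + 1 + j) := by
        ring
      rw [e1]
      linarith

theorem c_zero_of_lt (x : ℂ) : ∀ N j : ℕ, N < 2 * j → c x N j = 0
  | 0, 0, hj => absurd hj (by omega)
  | 0, _ + 1, _ => by rw [c]
  | 1, 0, hj => absurd hj (by omega)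
  | 1, _ + 1, _ => by rw [c]
  | _ + 2, 0, hj => absurd hj (by omega)
  | N + 2, j + 1, hj => by
    rw [c, c_zero_of_lt x (N + 1) (j + 1) (by omega), c_zero_of_lt x N j (by omega), mul_zero,
      add_zero]

theorem c_zero_right (x : ℂ) (N : ℕ) : c x N 0 = 1 := by
  rcases N with _ | _ | N <;> simp [c]

theorem c_eq (x : ℂ) (j : ℕ) : ∀ k : ℕ, c x (k + 2 * j) j = x ^ (j ^ 2) * h x k j := by
  induction j with
  | zero =>
    intro k
    rw [c_zero_right, h_zero_right]
    simp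
  | succ j ihj =>
    intro k
    induction k with
    | zero =>
      have e0 : 0 + 2 * (j + 1) = 2 * j + 2 := by ring
      rw [e0, c, c_zero_of_lt x (2 * j + 1) (j + 1) (by omega), zero_add, h_zero_left]
      have h1 := ihj 0
      rw [zero_add, h_zero_left] at h1
      rw [h1, mul_one, mul_one, ← pow_add]
      congr 1
      ring
    | succ k ihk =>
      have e0 : k + 1 + 2 * (j + 1) = (k + 1 + 2 * j) + 2 := by ring
      have e1 : k + 1 + 2 * j + 1 = k + 2 * (j + 1) := by ring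
      rw [e0, c, ihj (k + 1), e1, ihk, h_succ]
      have e2 : k + 2 * (j + 1) + j ^ 2 = (j + 1) ^ 2 + (k + 1) := by ring
      have e3 : x ^ (k + 2 * (j + 1)) * x ^ (j ^ 2) = x ^ ((j + 1) ^ 2) * x ^ (k + 1) := by
        rw [← pow_add, ← pow_add, e2]
      linear_combination h x (k + 1) j * e3

theorem summable_h (x : ℂ) (hx : ‖x‖ = 1) (k : ℕ) {w : ℂ} (hw : ‖w‖ < 1 / 2) :
    Summable (fun j : ℕ => h x k j * w ^ j) := by
  have h1 : Summable (fun j : ℕ => (2 : ℝ) ^ k * (2 * ‖w‖) ^ j) := by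
    refine Summable.mul_left _ (summable_geometric_of_lt_one (by positivity) (by linarith))
  refine Summable.of_norm_bounded h1 ?_
  intro j
  rw [norm_mul, norm_pow, mul_pow, ← mul_assoc, ← pow_add]
  exact mul_le_mul_of_nonneg_right (norm_h_le x hx k j) (by positivity)

theorem hasSum_h (x : ℂ) (hx : ‖x‖ = 1) {w : ℂ} (hw : ‖w‖ < 1 / 2) (k : ℕ) :
    HasSum (fun j : ℕ => h x k j * w ^ j) (∏ i ∈ range (k + 1), (1 - w * x ^ i)⁻¹) := by
  induction k with
  | zero =>
    simp only [h_zero_left, one_mul, zero_add, range_one, prod_singleton, pow_zero, mul_one]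
    exact hasSum_geometric_of_norm_lt_one (by linarith)
  | succ k ih =>
    have hs := (summable_h x hx (k + 1) hw).hasSum
    set S := ∑' j : ℕ, h x (k + 1) j * w ^ j with hS
    have hne : (1 - w * x ^ (k + 1)) ≠ 0 := by
      intro h0
      have h1 : w * x ^ (k + 1) = 1 := (sub_eq_zero.1 h0).symm
      have h2 : ‖w * x ^ (k + 1)‖ = ‖w‖ := by rw [norm_mul, norm_pow, hx, one_pow, mul_one]
      rw [h1, norm_one] at h2
      linarith
    -- the shifted series
    have h1 : HasSum (fun j : ℕ => h x (k + 1) (j + 1) * w ^ (j + 1)) (S - 1) := by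
      have := (hasSum_nat_add_iff' 1).2 hs
      simpa [h_zero_right] using this
    have h2 : HasSum (fun j : ℕ => h x k (j + 1) * w ^ (j + 1))
        ((∏ i ∈ range (k + 1), (1 - w * x ^ i)⁻¹) - 1) := by
      have := (hasSum_nat_add_iff' 1).2 ih
      simpa [h_zero_right] using this
    have h3 : HasSum (fun j : ℕ => x ^ (k + 1) * h x (k + 1) j * w ^ (j + 1))
        (x ^ (k + 1) * w * S) := by
      have h0 := hs.mul_left (x ^ (k + 1) * w)
      have h00 : (fun j : ℕ => x ^ (k + 1) * w * (h x (k + 1) j * w ^ j)) =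
          fun j : ℕ => x ^ (k + 1) * h x (k + 1) j * w ^ (j + 1) := by
        funext j
        ring
      rw [h00] at h0
      exact h0
    have h4 := h2.add h3
    have h5 : (fun j : ℕ => h x k (j + 1) * w ^ (j + 1) + x ^ (k + 1) * h x (k + 1) j * w ^ (j + 1))
        = fun j : ℕ => h x (k + 1) (j + 1) * w ^ (j + 1) := by
      funext j
      rw [h_succ]
      ring
    rw [h5] at h4
    have h6 := h1.unique h4
    have h7 : S = (∏ i ∈ range (k + 1), (1 - w * x ^ i)⁻¹) * (1 - w * x ^ (k + 1))⁻¹ := by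
      rw [eq_mul_inv_iff_mul_eq₀ hne]
      linear_combination h6
    rw [prod_range_succ, ← h7]
    exact hs

/-- the double family -/
noncomputable def F (x u : ℂ) (p : ℕ × ℕ) : ℂ :=
  u ^ (p.1 + p.2) * (x⁻¹ ^ (p.1 * p.2) * h x (2 * p.1) p.2)

theorem summable_F (x : ℂ) (hx : ‖x‖ = 1) {u : ℂ} (hu : ‖u‖ < 1 / 16) : Summable (F x u) := by
  have h1 : Summable (fun g : ℕ => (4 * ‖u‖) ^ g) :=
    summable_geometric_of_lt_one (by positivity) (by linarith)
  have h2 : Summable (fun j : ℕ => (2 * ‖u‖) ^ j) :=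
    summable_geometric_of_lt_one (by positivity) (by linarith)
  have h3 := h1.mul_of_nonneg h2 (fun g => by positivity) (fun j => by positivity)
  refine Summable.of_norm_bounded h3 ?_
  rintro ⟨g, j⟩
  have hb := norm_h_le x hx (2 * g) j
  have hxi : ‖x⁻¹‖ = 1 := by rw [norm_inv, hx, inv_one]
  simp only [F]
  rw [norm_mul, norm_mul, norm_pow, norm_pow, hxi, one_pow, one_mul]
  calc ‖u‖ ^ (g + j) * ‖h x (2 * g) j‖ ≤ ‖u‖ ^ (g + j) * 2 ^ (2 * g + j) :=
        mul_le_mul_of_nonneg_left hb (by positivity)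
    _ = (4 * ‖u‖) ^ g * (2 * ‖u‖) ^ j := by
        rw [mul_pow, mul_pow, pow_add, pow_add, pow_mul]
        norm_num
        ring

theorem V_eq (hG : S_GRAM) (x : ℂ) (hx : ‖x‖ = 1) (hr : ∀ n : ℕ, 0 < n → x ^ n ≠ 1) (n : ℕ)
    (u : ℂ) : (V x n : ℂ) * u ^ n = ∑ p ∈ antidiagonal n, F x u p := by
  have h1 := hG x hx hr n n
  have h2 : (V x n : ℂ) = Q x (n + n) (x⁻¹ ^ n) := by
    rw [← h1, V, Complex.mul_conj, Complex.mul_conj, Complex.normSq_eq_norm_sq,
      Complex.normSq_eq_norm_sq]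
    push_cast
    rfl
  have hx0 : x ≠ 0 := by
    intro h0
    rw [h0, norm_zero] at hx
    exact zero_ne_one hx
  have hsw : ∑ p ∈ antidiagonal n, F x u p = ∑ j ∈ range (n + 1), F x u (n - j, j) := by
    rw [← Finset.Nat.sum_antidiagonal_swap (f := F x u)]
    exact Finset.Nat.sum_antidiagonal_eq_sum_range_succ_mk _ _
  rw [hsw, h2, Q, sum_mul]
  have e0 : (n + n) / 2 + 1 = n + 1 := by omega
  rw [e0]
  refine sum_congr rfl ?_
  intro j hj
  have hjn : j ≤ n := by
    have := mem_range.1 hj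
    omega
  obtain ⟨g, rfl⟩ := Nat.exists_eq_add_of_le hjn
  have e1 : j + g - j = g := by omega
  have e2 : j + g + (j + g) = 2 * g + 2 * j := by ring
  rw [e1, e2, c_eq]
  simp only [F]
  have e3 : x ^ (j ^ 2) * (x⁻¹ ^ (j + g)) ^ j = x⁻¹ ^ (g * j) := by
    rw [← pow_mul, add_mul, pow_add, ← mul_assoc, ← pow_two, inv_pow, mul_inv_cancel₀, one_mul]
    exact pow_ne_zero _ hx0
  rw [add_comm g j]
  linear_combination h x (2 * g) j * u ^ (j + g) * e3

/-- Task GEN -/
theorem t_GEN (hG : S_GRAM) : S_GEN := by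
  intro x hx hr u hu
  have hS := (summable_F x hx hu).hasSum
  set S := ∑' p : ℕ × ℕ, F x u p with hSdef
  have hx0 : x ≠ 0 := by
    intro h0
    rw [h0, norm_zero] at hx
    exact zero_ne_one hx
  have hxi : ‖x⁻¹‖ = 1 := by rw [norm_inv, hx, inv_one]
  -- rows
  have hrow : ∀ g : ℕ, HasSum (fun j : ℕ => F x u (g, j))
      (u ^ g * ∏ i ∈ range (2 * g + 1), (1 - u * x ^ i * x⁻¹ ^ g)⁻¹) := by
    intro g
    have hw : ‖u * x⁻¹ ^ g‖ < 1 / 2 := by
      rw [norm_mul, norm_pow, hxi, one_pow, mul_one]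
      linarith
    have h1 := (hasSum_h x hx hw (2 * g)).mul_left (u ^ g)
    have h2 : (fun j : ℕ => u ^ g * (h x (2 * g) j * (u * x⁻¹ ^ g) ^ j)) =
        fun j : ℕ => F x u (g, j) := by
      funext j
      simp only [F]
      rw [mul_pow, ← pow_mul]
      ring
    have h3 : ∏ i ∈ range (2 * g + 1), (1 - u * x⁻¹ ^ g * x ^ i)⁻¹ =
        ∏ i ∈ range (2 * g + 1), (1 - u * x ^ i * x⁻¹ ^ g)⁻¹ := by
      refine prod_congr rfl ?_
      intro i _
      congr 2
      ring
    rw [h2, h3] at h1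
    exact h1
  have hPhi : S = Phi x u := (hS.prod_fiberwise hrow).tsum_eq.symm
  rw [← hPhi]
  have h1 : HasSum (F x u ∘ (Finset.HasAntidiagonal.sigmaAntidiagonalEquivProd (A := ℕ))) S :=
    (Equiv.hasSum_iff (Finset.HasAntidiagonal.sigmaAntidiagonalEquivProd (A := ℕ))).2 hS
  have h2 := h1.sigma (fun n => hasSum_fintype _)
  have h3 : (fun n : ℕ => ∑ c : {p // p ∈ antidiagonal n},
      (F x u ∘ (Finset.HasAntidiagonal.sigmaAntidiagonalEquivProd (A := ℕ))) ⟨n, c⟩) =
      fun n : ℕ => (V x n : ℂ) * u ^ n := by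
    funext n
    rw [V_eq hG x hx hr n u, ← Finset.sum_coe_sort (antidiagonal n)]
    rfl
  rw [← h3]
  exact h2

end Pool.Agent.Y891.RR
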